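import Pool.Agent.T4h91.BR.Fin

set_option autoImplicit false

/-!
# MP_12a1af_nt: sets of integers which are biased with respect to many moduli

`rep A n` is the number `r_A(n)` of ordered pairs `(a, b) ∈ A × A` with `a + b = n`, and
`seg A N = A ∩ [1, N]`.

A function `φ : ℕ → ℂ` is primitive modulo `q` (`Prim q φ`) if it has period `q`, mean square at most
one, and its sums over the residue classes modulo `d` vanish for all proper divisors `d` of `q`.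
Examples: primitive Dirichlet characters modulo `q`; for a prime `q` all functions with mean zero and
mean square at most one, for instance `(1_S - σ) / √(σ (1 - σ))` for a set `S` of `σ q` residue classes.

1. If `φ_q` is primitive modulo `q` for all `q`, then
   `∑_{q ≤ √N} |∑_{a ∈ A, a ≤ N} φ_q(a)|⁴ / φ(q) ≤ 18 N ∑_{n ≤ 2 N} r_A(n)²`.
2. Let `Q ⊆ [1, √N]`, `δ_q ≥ 0`, `L = ∑_{q ∈ Q} δ_q⁴ / φ(q)` and call `a` biased if
   `|∑_{q ∈ Q} δ_q³ φ_q(a) / φ(q)| ≥ c L` (for instance if `φ_q(a) = δ_q` for all `q ∈ Q`, or if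
   `δ_q = δ` and `|∑ φ_q(a) / φ(q)| ≥ δ ∑ 1 / φ(q)`). The number `b` of the biased elements of `A` up to
   `N` satisfies `c⁴ L b⁴ ≤ 73728 N ∑_{n ≤ 2 N} r_A(n)²`.
3. So, if for infinitely many `N` at least `ε √N` elements of `A` up to `N` are biased, where `Q`, `φ_q`,
   `δ_q` may depend on `N` and `L → ∞`, then `r_A` is unbounded, even in mean square. In particular Q1
   and Q2 hold for all sets `A` (as in Q1 or in Q2) such that for infinitely many `N` at least `ε |seg A N|`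
   of the elements of `seg A N` are biased.
4. Example: for some `y(N) → ∞`, `y(N) ≤ √N`, these `a` satisfy
   `|∑_{2 < p ≤ y} (a / p) / (p - 1)| ≥ δ ∑_{2 < p ≤ y} 1 / (p - 1)` with the Legendre symbols `(a / p)`.
5. Fixed biases: let `A` have at least `c √N` elements up to `N` for infinitely many `N`, and let
   `|∑_{a ≤ N, a ∈ A} φ_q(a)| ≥ δ_q |seg A N|` for all large `N`. If `∑_q δ_q⁴ / φ(q) = ∞`, then `r_A` is
   unbounded, even in mean square.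
6. Example: for every prime `p` let `S_p` be a set of `σ_p p` residue classes modulo `p` such that at least
   `(σ_p + β_p) |seg A N|` elements of `seg A N` are in `S_p` modulo `p`, for all large `N`. If
   `∑_p β_p⁴ / ((σ_p (1 - σ_p))² (p - 1)) = ∞`, then `r_A` is unbounded, even in mean square.
   The case `β_p = 1 - σ_p` (`A` in the classes `S_p`) is a result of the starting file `FewResidues`.

Method: the fourth power of the exponential sum of `A` is bounded by the large sieve for the coefficients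
`r_A(n)`; duality and Hölder's inequality.
-/

open Finset Filter Topology

namespace Pool.Agent.Results.MP_12a1af_nt.BiasedResidues

/-- `r_A(n)`: the number of ordered pairs `(a, b)` of elements of `A` with `a + b = n` -/
noncomputable def rep (A : Set ℕ) (n : ℕ) : ℕ :=
  Set.ncard {p : ℕ × ℕ | p.1 ∈ A ∧ p.2 ∈ A ∧ p.1 + p.2 = n}

/-- the hypothesis of Q1: `r_A(n) ≥ 1` for all large `n` -/
def IsBasis (A : Set ℕ) : Prop := ∃ n₀ : ℕ, ∀ n, n₀ ≤ n → 1 ≤ rep A n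

/-- the hypothesis of Q2: `A` is infinite and `a_n ≤ C n ^ 2` for all `n ≥ 1`, where `a_1 < a_2 < ...` are
the elements of `A` -/
def QuadGrowth (A : Set ℕ) : Prop :=
  A.Infinite ∧ ∃ C : ℝ, ∀ n : ℕ, 1 ≤ n → (Nat.nth (· ∈ A) (n - 1) : ℝ) ≤ C * (n : ℝ) ^ 2

open Classical in
/-- the elements of `A` in `[1, N]` -/
noncomputable def seg (A : Set ℕ) (N : ℕ) : Finset ℕ := (Icc 1 N).filter (· ∈ A)

/-- at least `c √N` elements up to `N`, for infinitely many `N` -/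
def Thick (A : Set ℕ) : Prop :=
  ∃ c : ℝ, 0 < c ∧ ∃ᶠ N : ℕ in atTop, c * Real.sqrt N ≤ ((seg A N).card : ℝ)

/-- `r_A` is unbounded, even in mean square -/
def Unbdd (A : Set ℕ) : Prop :=
  (∀ B : ℝ, ∃ᶠ N : ℕ in atTop, B * N < ∑ n ∈ range N, (rep A n : ℝ) ^ 2) ∧ ∀ K : ℕ, ∃ n, K < rep A n

/-- `φ` is a primitive function modulo `q`: it has period `q` and mean square at most one, and for
every proper divisor `d` of `q` its sums over the residue classes modulo `d` vanish. -/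
structure Prim (q : ℕ) (φ : ℕ → ℂ) : Prop where
  per : ∀ n, φ (n % q) = φ n
  msq : ∑ x ∈ range q, ‖φ x‖ ^ 2 ≤ q
  prim : ∀ d : ℕ, d ∣ q → d ≠ q → ∀ y : ℕ, ∑ x ∈ (range q).filter (fun x => x % d = y), φ x = 0

/-- `L = ∑ δ_q⁴ / φ(q)` -/
noncomputable def LL (Q : Finset ℕ) (δ : ℕ → ℝ) : ℝ := ∑ q ∈ Q, δ q ^ 4 / (Nat.totient q : ℝ)

/-- `∑ δ_q³ φ_q(n) / φ(q)` -/
noncomputable def SS (Q : Finset ℕ) (δ : ℕ → ℝ) (φ : ℕ → ℕ → ℂ) (n : ℕ) : ℂ :=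
  ∑ q ∈ Q, ((δ q ^ 3 / (Nat.totient q : ℝ) : ℝ) : ℂ) * φ q n

/-- the Legendre symbol `(a / p)` -/
noncomputable def leg (a p : ℕ) : ℝ := ((jacobiSym (a : ℤ) p : ℤ) : ℝ)

theorem unbdd_of {A : Set ℕ}
    (h : ∀ B : ℝ, ∃ᶠ N : ℕ in atTop, B * N < ∑ n ∈ range N,
      (Pool.Agent.TH314.ET.rep A n : ℝ) ^ 2) : Unbdd A :=
  ⟨h, Pool.Agent.TH314.ET.unbounded_of_mean A h⟩

theorem toP {q : ℕ} {φ : ℕ → ℂ} (h : Prim q φ) : Pool.Agent.T4h91.BR.Prim q φ :=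
  ⟨h.per, h.msq, h.prim⟩

theorem ofP {q : ℕ} {φ : ℕ → ℂ} (h : Pool.Agent.T4h91.BR.Prim q φ) : Prim q φ :=
  ⟨h.per, h.msq, h.prim⟩

theorem toT {A : Set ℕ} (h : Thick A) : Pool.Agent.TH314.ET.Thick A := by
  obtain ⟨c, hc, h1⟩ := h
  refine ⟨c, hc, h1.mono fun N hN => ?_⟩
  rw [Pool.Agent.TH314.ET.seg_card]
  exact hN

theorem ofT {A : Set ℕ} (h : Pool.Agent.TH314.ET.Thick A) : Thick A := by
  obtain ⟨c, hc, h1⟩ := h
  refine ⟨c, hc, h1.mono fun N hN => ?_⟩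
  rw [Pool.Agent.TH314.ET.seg_card] at hN
  exact hN

theorem result :
    -- 0. the hypotheses of Q1 and of Q2
    (∀ A : Set ℕ, IsBasis A ∨ QuadGrowth A →
      Thick A ∧ ∃ c : ℝ, 0 < c ∧ ∀ᶠ N : ℕ in atTop, c * Real.sqrt N ≤ ((seg A N).card : ℝ)) ∧
    -- examples of primitive functions
    (∀ (q : ℕ) (χ : DirichletCharacter ℂ q), 0 < q → χ.IsPrimitive →
      Prim q (fun n => χ (n : ZMod q))) ∧
    (∀ (p : ℕ) (ψ : ℕ → ℂ), p.Prime → (∀ n, ψ (n % p) = ψ n) → ∑ x ∈ range p, ψ x = 0 →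
      ∑ x ∈ range p, ‖ψ x‖ ^ 2 ≤ p → Prim p ψ) ∧
    -- 1. the inequality
    (∀ (A : Set ℕ) (N : ℕ) (φ : ℕ → ℕ → ℂ), (∀ q, 1 ≤ q → Prim q (φ q)) →
      ∑ q ∈ Icc 1 (Nat.sqrt N), ‖∑ a ∈ seg A N, φ q a‖ ^ 4 / (Nat.totient q : ℝ) ≤
        18 * N * ∑ n ∈ range (2 * N + 1), (rep A n : ℝ) ^ 2) ∧
    -- 2. few elements of `A` are biased
    (∀ (A : Set ℕ) (N : ℕ) (Q : Finset ℕ) (φ : ℕ → ℕ → ℂ) (δ : ℕ → ℝ) (c : ℝ),
      Q ⊆ Icc 1 (Nat.sqrt N) → (∀ q ∈ Q, Prim q (φ q)) → (∀ q, 0 ≤ δ q) → 0 < c →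
      c ^ 4 * LL Q δ * (({a : ℕ | a ∈ A ∧ 1 ≤ a ∧ a ≤ N ∧ c * LL Q δ ≤ ‖SS Q δ φ a‖}.ncard : ℕ) : ℝ) ^ 4 ≤
        73728 * N * ∑ n ∈ range (2 * N + 1), (rep A n : ℝ) ^ 2) ∧
    -- 3. sets with many biased elements
    (∀ (A : Set ℕ) (Q : ℕ → Finset ℕ) (φ : ℕ → ℕ → ℕ → ℂ) (δ : ℕ → ℕ → ℝ) (c ε : ℝ),
      (∀ N, Q N ⊆ Icc 1 (Nat.sqrt N)) → (∀ N, ∀ q ∈ Q N, Prim q (φ N q)) → (∀ N q, 0 ≤ δ N q) →
      Tendsto (fun N => LL (Q N) (δ N)) atTop atTop → 0 < c → 0 < ε →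
      ((∃ᶠ N : ℕ in atTop, ε * Real.sqrt N ≤ (({a : ℕ | a ∈ A ∧ 1 ≤ a ∧ a ≤ N ∧
        c * LL (Q N) (δ N) ≤ ‖SS (Q N) (δ N) (φ N) a‖}.ncard : ℕ) : ℝ)) → Unbdd A) ∧
      (IsBasis A ∨ QuadGrowth A →
        (∃ᶠ N : ℕ in atTop, ε * (seg A N).card ≤ (({a : ℕ | a ∈ A ∧ 1 ≤ a ∧ a ≤ N ∧
          c * LL (Q N) (δ N) ≤ ‖SS (Q N) (δ N) (φ N) a‖}.ncard : ℕ) : ℝ)) → Unbdd A)) ∧
    -- 4. Legendre symbols
    (∀ (A : Set ℕ) (y : ℕ → ℕ) (δ ε : ℝ), IsBasis A ∨ QuadGrowth A → Tendsto y atTop atTop →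
      (∀ N, y N ≤ Nat.sqrt N) → 0 < δ → 0 < ε →
      (∃ᶠ N : ℕ in atTop, ε * (seg A N).card ≤ (({a : ℕ | a ∈ A ∧ 1 ≤ a ∧ a ≤ N ∧
        δ * ∑ p ∈ (Icc 3 (y N)).filter Nat.Prime, 1 / ((p : ℝ) - 1) ≤
          |∑ p ∈ (Icc 3 (y N)).filter Nat.Prime, leg a p / ((p : ℝ) - 1)|}.ncard : ℕ) : ℝ)) →
      Unbdd A) ∧
    -- 5. fixed biases
    (∀ (A : Set ℕ) (φ : ℕ → ℕ → ℂ) (δ : ℕ → ℝ), Thick A → (∀ q, 0 ≤ δ q) →
      (∀ q, 0 < δ q → Prim q (φ q)) →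
      (∀ q, 0 < δ q → ∀ᶠ N : ℕ in atTop, δ q * (seg A N).card ≤ ‖∑ a ∈ seg A N, φ q a‖) →
      (¬ Summable fun q : ℕ => δ q ^ 4 / (Nat.totient q : ℝ)) → Unbdd A) ∧
    -- 6. biased sets of residue classes
    (∀ (A : Set ℕ) (S : ℕ → Finset ℕ) (β : ℕ → ℝ), Thick A → (∀ p, S p ⊆ range p) →
      (∀ p, 0 ≤ β p) →
      (∀ p : ℕ, p.Prime → ∀ᶠ N : ℕ in atTop, (((S p).card : ℝ) / p + β p) * (seg A N).card ≤
        (((seg A N).filter (fun a => a % p ∈ S p)).card : ℝ)) →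
      (¬ Summable fun p : ℕ => if p.Prime then
        β p ^ 4 / ((((S p).card : ℝ) / p * (1 - ((S p).card : ℝ) / p)) ^ 2 * ((p : ℝ) - 1)) else 0) →
      Unbdd A) := by
  have hlow : ∀ (A : Set ℕ), IsBasis A ∨ QuadGrowth A → ∀ (ε : ℝ) (b : ℕ → ℝ), 0 < ε →
      (∃ᶠ N : ℕ in atTop, ε * (seg A N).card ≤ b N) →
      ∃ ε' : ℝ, 0 < ε' ∧ ∃ᶠ N : ℕ in atTop, ε' * Real.sqrt N ≤ b N := by
    intro A hA ε b hε h
    obtain ⟨c, hc, hc2⟩ := Pool.Agent.T4h91.BR.low_all A hA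
    refine ⟨ε * c, by positivity, (h.and_eventually hc2).mono fun N hN => ?_⟩
    calc ε * c * Real.sqrt N = ε * (c * Real.sqrt N) := by ring
      _ ≤ ε * (seg A N).card := mul_le_mul_of_nonneg_left hN.2 hε.le
      _ ≤ b N := hN.1
  refine ⟨?_, ?_, ?_, ?_, ?_, ?_, ?_, ?_, ?_⟩
  · intro A h
    refine ⟨?_, Pool.Agent.T4h91.BR.low_all A h⟩
    rcases h with h | h
    · exact ofT (Pool.Agent.TH314.ET.thick_of_basis A h)
    · exact ofT (Pool.Agent.TH314.ET.thick_of_growth A h)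
  · intro q χ hq hχ
    exact ofP (Pool.Agent.T4h91.BR.prim_char hq χ hχ)
  · intro p ψ hp h1 h2 h3
    exact ofP (Pool.Agent.T4h91.BR.prim_prime hp ψ h1 h2 h3)
  · intro A N φ h
    exact Pool.Agent.T4h91.BR.quartic A N φ fun q hq => toP (h q hq)
  · intro A N Q φ δ c hQ hφ hδ hc
    exact Pool.Agent.T4h91.BR.biased_set A N Q hQ φ (fun q hq => toP (hφ q hq)) δ hδ c hc
  · intro A Q φ δ c ε hQ hφ hδ hL hc hε
    refine ⟨fun h => unbdd_of fun B => Pool.Agent.T4h91.BR.biased_unbounded A Q hQ φ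
      (fun N q hq => toP (hφ N q hq)) δ hδ hL c ε hc hε h B, fun hA h => ?_⟩
    obtain ⟨ε', hε', h'⟩ := hlow A hA ε _ hε h
    exact unbdd_of fun B => Pool.Agent.T4h91.BR.biased_unbounded A Q hQ φ
      (fun N q hq => toP (hφ N q hq)) δ hδ hL c ε' hc hε' h' B
  · intro A y δ ε hA hy hyN hδ hε h
    obtain ⟨ε', hε', h'⟩ := hlow A hA ε _ hε h
    exact unbdd_of fun B => Pool.Agent.T4h91.BR.legendre_biased A y hy hyN δ ε' hδ hε' h' B
  · intro A φ δ hA hδ hφ hb hdiv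
    exact unbdd_of fun B =>
      Pool.Agent.T4h91.BR.diverge A (toT hA) φ δ hδ (fun q hq => toP (hφ q hq)) hb hdiv B
  · intro A S β hA hS hβ hb hdiv
    exact unbdd_of fun B => Pool.Agent.T4h91.BR.sets_biased A (toT hA) S hS β hβ hb hdiv B

end Pool.Agent.Results.MP_12a1af_nt.BiasedResidues
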